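import Pool.Agent.H33.ModRado

/-!
# MP_2076c8_co: the number of colours is unbounded as soon as there are three unknowns

The definitions follow the problem: `ZMod (2 ^ r)` is the cyclic group, `twoPow r e` is its
subgroup `2 ^ e ℤ / 2 ^ r ℤ`, and `dOf a` is the largest integer `e` with `0 ≤ e ≤ r` such that
`2 ^ e` divides some non-empty subset sum of the coefficients.
-/

set_option autoImplicit false

namespace Pool.Agent.Results.MP_2076c8_co.UnboundedFromThree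

open Pool.Agent.H33.ModRado Filter

/-- The subgroup `2 ^ e ℤ / 2 ^ r ℤ` of `ℤ / 2 ^ r ℤ`: the image of `2 ^ e ℤ` under reduction
modulo `2 ^ r`. That `2 ^ e` divides `y` means that `y` lies in this subgroup. -/
def twoPow (r e : ℕ) : AddSubgroup (ZMod (2 ^ r)) :=
  (AddSubgroup.zmultiples ((2 : ℤ) ^ e)).map (Int.castAddHom (ZMod (2 ^ r)))

/-- The integers `e` with `0 ≤ e ≤ r` such that `2 ^ e` divides the sum of the `a i`, `i ∈ I`,
for at least one non-empty set `I` of indices. -/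
def exponents {r k : ℕ} (a : Fin k → ZMod (2 ^ r)) : Set ℕ :=
  {e | e ≤ r ∧ ∃ I : Finset (Fin k), I.Nonempty ∧ ∑ i ∈ I, a i ∈ twoPow r e}

/-- The number `d = d(a_1, …, a_k)`: the largest member of `exponents a`. -/
noncomputable def dOf {r k : ℕ} (a : Fin k → ZMod (2 ^ r)) : ℕ := sSup (exponents a)

/-- The tuple `x` is a solution of `a_1 x_1 + … + a_k x_k = 0` and all its entries have the same
colour. -/
def MonoSolution {r k K : ℕ} (a : Fin k → ZMod (2 ^ r)) (c : ZMod (2 ^ r) → Fin K)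
    (x : Fin k → ZMod (2 ^ r)) : Prop :=
  ∑ i, a i * x i = 0 ∧ ∀ i j, c (x i) = c (x j)

/-- Every monochromatic solution `x` has `2 ^ (r - d)` dividing `x_i` for every `i`. -/
def Good {r k K : ℕ} (a : Fin k → ZMod (2 ^ r)) (c : ZMod (2 ^ r) → Fin K) : Prop :=
  ∀ x : Fin k → ZMod (2 ^ r), MonoSolution a c x → ∀ i, x i ∈ twoPow r (r - dOf a)

/-- The assertion of Q1 for one value of `k`: some number `K` of colours serves every `r` and
all coefficients `a_1, …, a_k`. -/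
def Bounded (k : ℕ) : Prop :=
  ∃ K : ℕ, ∀ (r : ℕ) (a : Fin k → ZMod (2 ^ r)), ∃ c : ZMod (2 ^ r) → Fin K, Good a c

/-- The coefficients `1, -(1 + 2 ^ (2 n) + 2 ^ (3 n)), 2 ^ (2 n) - (k - 3), 1, …, 1` in
`ℤ / 2 ^ (4 n)`; for `k = 3` these are `1, -(1 + 2 ^ (2 n) + 2 ^ (3 n)), 2 ^ (2 n)`. -/
def family (k n : ℕ) : Fin k → ZMod (2 ^ (4 * n)) := fun i =>
  if (i : ℕ) = 1 then -(1 + 2 ^ (2 * n) + 2 ^ (3 * n))
  else if (i : ℕ) = 2 then 2 ^ (2 * n) - ((k : ZMod (2 ^ (4 * n))) - 3)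
  else 1

/-! ### The subgroup and the exponent -/

theorem mem_twoPow_iff {r e : ℕ} (y : ZMod (2 ^ r)) :
    y ∈ twoPow r e ↔ (2 : ZMod (2 ^ r)) ^ e ∣ y := by
  unfold twoPow
  rw [AddSubgroup.mem_map]
  constructor
  · rintro ⟨z, hz, rfl⟩
    obtain ⟨m, rfl⟩ := AddSubgroup.mem_zmultiples_iff.mp hz
    refine ⟨(m : ZMod (2 ^ r)), ?_⟩
    simp only [Int.coe_castAddHom, smul_eq_mul]
    push_cast
    ring
  · rintro ⟨w, rfl⟩
    obtain ⟨m, rfl⟩ := ZMod.intCast_surjective w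
    refine ⟨m • (2 : ℤ) ^ e, AddSubgroup.mem_zmultiples_iff.mpr ⟨m, rfl⟩, ?_⟩
    simp only [Int.coe_castAddHom, smul_eq_mul]
    push_cast
    ring

theorem intCast_mem {r e : ℕ} (he : e ≤ r) (z : ℤ) :
    (z : ZMod (2 ^ r)) ∈ twoPow r e ↔ (2 : ℤ) ^ e ∣ z := by
  rw [mem_twoPow_iff, dvd_iff_ZMod he]

theorem twoPow_mono {r e e' : ℕ} (h : e ≤ e') {y : ZMod (2 ^ r)} (hy : y ∈ twoPow r e') :
    y ∈ twoPow r e := by
  rw [mem_twoPow_iff] at hy ⊢
  exact (pow_dvd_pow 2 h).trans hy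

theorem mem_twoPow_zero {r : ℕ} (y : ZMod (2 ^ r)) : y ∈ twoPow r 0 := by
  rw [mem_twoPow_iff, pow_zero]
  exact one_dvd y

theorem exponents_bdd {r k : ℕ} (a : Fin k → ZMod (2 ^ r)) : BddAbove (exponents a) :=
  ⟨r, fun _ he => he.1⟩

theorem le_dOf {r k : ℕ} (a : Fin k → ZMod (2 ^ r)) {e : ℕ} (he : e ∈ exponents a) :
    e ≤ dOf a :=
  le_csSup (exponents_bdd a) he

theorem dOf_isGreatest {r k : ℕ} (a : Fin k → ZMod (2 ^ r)) (hk : 0 < k) :
    IsGreatest (exponents a) (dOf a) := by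
  refine ⟨Nat.sSup_mem ⟨0, Nat.zero_le r, {⟨0, hk⟩}, Finset.singleton_nonempty _,
    mem_twoPow_zero _⟩ (exponents_bdd a), fun e he => le_dOf a he⟩

/-! ### The family of coefficients -/

/-- Integer representatives of the coefficients. -/
def famInt (k n : ℕ) : Fin k → ℤ := fun i =>
  if (i : ℕ) = 1 then -(1 + 2 ^ (2 * n) + 2 ^ (3 * n))
  else if (i : ℕ) = 2 then 2 ^ (2 * n) - ((k : ℤ) - 3)
  else 1

theorem family_eq (k n : ℕ) (i : Fin k) : family k n i = ((famInt k n i : ℤ) : ZMod _) := by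
  unfold family famInt
  split_ifs <;> push_cast <;> ring

theorem famInt_sum (m n : ℕ) :
    ∑ i : Fin (m + 3), famInt (m + 3) n i = -2 ^ (3 * n) := by
  rw [Fin.sum_univ_succ, Fin.sum_univ_succ, Fin.sum_univ_succ]
  have h : ∀ i : Fin m, famInt (m + 3) n i.succ.succ.succ = 1 := by
    intro i
    unfold famInt
    rw [if_neg (by simp), if_neg (by simp)]
  have h0 : famInt (m + 3) n (0 : Fin (m + 3)) = 1 := by
    unfold famInt
    rw [if_neg (by simp), if_neg (by simp)]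
  have h1 : famInt (m + 3) n (0 : Fin (m + 2)).succ = -(1 + 2 ^ (2 * n) + 2 ^ (3 * n)) := by
    unfold famInt
    rw [if_pos (by rw [Fin.val_succ]; rfl)]
  have h2 : famInt (m + 3) n (0 : Fin (m + 1)).succ.succ = 2 ^ (2 * n) - m := by
    unfold famInt
    rw [if_neg (by rw [Fin.val_succ, Fin.val_succ]; simp),
      if_pos (by rw [Fin.val_succ, Fin.val_succ]; rfl)]
    push_cast
    ring
  rw [h0, h1, h2, Finset.sum_congr rfl (fun i _ => h i), Finset.sum_const, Finset.card_univ,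
    Fintype.card_fin, nsmul_eq_mul]
  ring

theorem famInt_subset_sum (m n : ℕ) (hn : 1 ≤ n) (hm : (m : ℤ) < 2 ^ (2 * n))
    (I : Finset (Fin (m + 3))) (hI : I.Nonempty) :
    ∑ i ∈ I, famInt (m + 3) n i ≠ 0 ∧ |∑ i ∈ I, famInt (m + 3) n i| < 2 ^ (3 * n + 1) := by
  classical
  set A := famInt (m + 3) n with hA
  have hpos : ∀ i : Fin (m + 3), i ≠ 1 → 0 < A i := by
    intro i hi
    have h1 : (i : ℕ) ≠ 1 := by
      intro h
      apply hi
      apply Fin.ext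
      rw [h]
      simp
    rw [hA]
    unfold famInt
    rw [if_neg h1]
    split_ifs
    · push_cast
      linarith
    · norm_num
  have hone : A 1 = -(1 + 2 ^ (2 * n) + 2 ^ (3 * n)) := by
    rw [hA]
    unfold famInt
    rw [if_pos (by simp)]
  have htot : ∑ i ∈ (Finset.univ : Finset (Fin (m + 3))).erase 1, A i = 1 + 2 ^ (2 * n) := by
    have h1 := Finset.add_sum_erase (Finset.univ : Finset (Fin (m + 3))) A (Finset.mem_univ 1)
    rw [hA, famInt_sum, ← hA, hone] at h1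
    linarith
  have hsub : ∀ J : Finset (Fin (m + 3)), 1 ∉ J → 0 ≤ ∑ i ∈ J, A i ∧
      ∑ i ∈ J, A i ≤ 1 + 2 ^ (2 * n) ∧ (J.Nonempty → 0 < ∑ i ∈ J, A i) := by
    intro J hJ
    have hJ1 : ∀ i ∈ J, i ≠ 1 := fun i hi h => hJ (h ▸ hi)
    refine ⟨Finset.sum_nonneg fun i hi => (hpos i (hJ1 i hi)).le, ?_, fun hne =>
      Finset.sum_pos (fun i hi => hpos i (hJ1 i hi)) hne⟩
    rw [← htot]
    apply Finset.sum_le_sum_of_subset_of_nonneg
    · intro i hi
      exact Finset.mem_erase.mpr ⟨hJ1 i hi, Finset.mem_univ i⟩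
    · intro i hi _
      exact (hpos i (Finset.mem_erase.mp hi).1).le
  have p1 : (4 : ℤ) ≤ 2 ^ (2 * n) := by
    calc (4 : ℤ) = 2 ^ 2 := by norm_num
      _ ≤ 2 ^ (2 * n) := pow_le_pow_right₀ (by norm_num) (by omega)
  have p2 : (2 : ℤ) ^ (2 * n) * 2 ≤ 2 ^ (3 * n) := by
    rw [← pow_succ]
    exact pow_le_pow_right₀ (by norm_num) (by omega)
  have p3 : (2 : ℤ) ^ (3 * n + 1) = 2 * 2 ^ (3 * n) := by
    rw [pow_succ]
    ring
  by_cases h1 : (1 : Fin (m + 3)) ∈ I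
  · have h2 := Finset.add_sum_erase I A h1
    obtain ⟨h3, h4, -⟩ := hsub (I.erase 1) (Finset.notMem_erase 1 I)
    rw [hone] at h2
    rw [← h2, p3, abs_lt]
    refine ⟨?_, ?_, ?_⟩
    · intro h
      linarith
    · linarith
    · linarith
  · obtain ⟨h3, h4, h5⟩ := hsub I h1
    have h6 := h5 hI
    rw [p3, abs_lt]
    refine ⟨h6.ne', ?_, ?_⟩
    · linarith
    · linarith

theorem dOf_family (k n : ℕ) (hk : 3 ≤ k) (hn : 1 ≤ n) (hkn : k ≤ 2 ^ (2 * n)) :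
    dOf (family k n) = 3 * n := by
  obtain ⟨m, rfl⟩ : ∃ m, k = m + 3 := ⟨k - 3, by omega⟩
  have hm : (m : ℤ) < 2 ^ (2 * n) := by
    have h1 : ((m + 3 : ℕ) : ℤ) ≤ ((2 ^ (2 * n) : ℕ) : ℤ) := by exact_mod_cast hkn
    push_cast at h1
    linarith
  have hG : IsGreatest (exponents (family (m + 3) n)) (3 * n) := by
    constructor
    · refine ⟨by omega, Finset.univ, Finset.univ_nonempty, ?_⟩
      rw [Finset.sum_congr rfl (fun i _ => family_eq (m + 3) n i), ← Int.cast_sum,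
        intCast_mem (by omega), famInt_sum]
      exact (dvd_refl _).neg_right
    · rintro e ⟨he, I, hI, hmem⟩
      by_contra hcon
      rw [Finset.sum_congr rfl (fun i _ => family_eq (m + 3) n i), ← Int.cast_sum,
        intCast_mem he] at hmem
      obtain ⟨h1, h2⟩ := famInt_subset_sum m n hn hm I hI
      have h3 : (2 : ℤ) ^ (3 * n + 1) ∣ ∑ i ∈ I, famInt (m + 3) n i :=
        (pow_dvd_pow 2 (by omega)).trans hmem
      have h4 := Int.le_of_dvd (abs_pos.mpr h1) ((dvd_abs _ _).mpr h3)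
      linarith
  exact (dOf_isGreatest (family (m + 3) n) (by omega)).unique hG

/-! ### Three or more unknowns -/

theorem eventually_bad (K : ℕ) : ∃ N : ℕ, ∀ n : ℕ, N ≤ n → ∀ c : ZMod (2 ^ (4 * n)) → Fin K,
    ∃ ζ ζ' y₁ y₂ y₃ : W, 0 < ζ.1 ∧ ζ.1 < (N : ℤ) ∧ c (Phi n ζ y₁) = c (Phi n ζ y₂) ∧
      c (Phi n ζ y₁) = c (Phi n ζ' y₃) ∧ y₁ - y₂ = T ζ - ζ' := by
  by_contra hcon
  push Not at hcon
  choose f hf c hc using hcon
  choose C hC using fun ζ y : W => exists_limit_color (fun N => c N (Phi (f N) ζ y))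
  obtain ⟨ζ, ζ', y₁, y₂, y₃, hpos, h12, h13, hrel⟩ := ramsey C
  have hlarge : ∀ᶠ N : ℕ in (hyperfilter ℕ : Filter ℕ), ζ.1 < (N : ℤ) := by
    have h1 : ∀ᶠ N : ℕ in atTop, ζ.1.toNat + 1 ≤ N := eventually_ge_atTop _
    have h2 : ∀ᶠ N : ℕ in atTop, ζ.1 < (N : ℤ) := by
      filter_upwards [h1] with N hN
      omega
    rw [← Nat.cofinite_eq_atTop] at h2
    exact hyperfilter_le_cofinite h2
  obtain ⟨N, hN1, hN2, hN3, hN4⟩ :=
    ((hC ζ y₁).and ((hC ζ y₂).and ((hC ζ' y₃).and hlarge))).exists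
  exact hc N ζ ζ' y₁ y₂ y₃ hpos hN4 (by rw [hN1, hN2, h12]) (by rw [hN1, hN3, h13]) hrel

theorem phi_not_mem (m n : ℕ) (hmn : m ≤ n) (ζ y : W) (h0 : 0 < ζ.1) (h1 : ζ.1 < (m : ℤ)) :
    Phi n ζ y ∉ twoPow (4 * n) m := by
  intro hmem
  rw [mem_twoPow_iff] at hmem
  have hdvd' : (2 : ZMod (2 ^ (4 * n))) ^ m ∣ (ζ.1 : ZMod (2 ^ (4 * n))) := by
    unfold Phi at hmem
    have h2 : (2 : ZMod (2 ^ (4 * n))) ^ m ∣ 2 ^ n * (ζ.2 : ZMod (2 ^ (4 * n))) :=
      (pow_dvd_pow 2 hmn).trans (dvd_mul_right _ _)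
    have h3 : (2 : ZMod (2 ^ (4 * n))) ^ m ∣ 2 ^ (2 * n) * (y.1 : ZMod (2 ^ (4 * n))) :=
      (pow_dvd_pow 2 (by omega)).trans (dvd_mul_right _ _)
    have h4 : (2 : ZMod (2 ^ (4 * n))) ^ m ∣ 2 ^ (3 * n) * (y.2 : ZMod (2 ^ (4 * n))) :=
      (pow_dvd_pow 2 (by omega)).trans (dvd_mul_right _ _)
    have h5 := dvd_sub (dvd_sub (dvd_sub hmem h4) h3) h2
    have h6 : (ζ.1 : ZMod (2 ^ (4 * n))) + 2 ^ n * (ζ.2 : ZMod (2 ^ (4 * n))) +
        2 ^ (2 * n) * (y.1 : ZMod (2 ^ (4 * n))) + 2 ^ (3 * n) * (y.2 : ZMod (2 ^ (4 * n))) -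
        2 ^ (3 * n) * (y.2 : ZMod (2 ^ (4 * n))) - 2 ^ (2 * n) * (y.1 : ZMod (2 ^ (4 * n))) -
        2 ^ n * (ζ.2 : ZMod (2 ^ (4 * n))) = (ζ.1 : ZMod (2 ^ (4 * n))) := by
      ring
    rwa [h6] at h5
  rw [dvd_iff_ZMod (by omega)] at hdvd'
  have hle := Int.le_of_dvd h0 hdvd'
  have hlt : (m : ℤ) < 2 ^ m := by exact_mod_cast Nat.lt_two_pow_self
  linarith

theorem family_bad (K : ℕ) : ∃ m : ℕ, ∀ k n : ℕ, 3 ≤ k → m + k ≤ n →
    dOf (family k n) = 3 * n ∧ ∀ c : ZMod (2 ^ (4 * n)) → Fin K,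
      ∃ x : Fin k → ZMod (2 ^ (4 * n)), MonoSolution (family k n) c x ∧
        ∀ i : Fin k, (i : ℕ) ≤ 1 → x i ∉ twoPow (4 * n) m := by
  obtain ⟨N, hN⟩ := eventually_bad K
  refine ⟨N, fun k n hk hn => ?_⟩
  have hn1 : N ≤ n := by omega
  have hn2 : k ≤ n := by omega
  have hn3 : 1 ≤ n := by omega
  have hkn : k ≤ 2 ^ (2 * n) := by
    have h1 : n < 2 ^ n := Nat.lt_two_pow_self
    have h2 : 2 ^ n ≤ 2 ^ (2 * n) := Nat.pow_le_pow_right (by norm_num) (by omega)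
    omega
  have hd := dOf_family k n hk hn3 hkn
  refine ⟨hd, fun c => ?_⟩
  obtain ⟨ζ, ζ', y₁, y₂, y₃, h0, h1, h12, h13, hrel⟩ := hN n hn1 c
  obtain ⟨m, rfl⟩ : ∃ m, k = m + 3 := ⟨k - 3, by omega⟩
  let x : Fin (m + 3) → ZMod (2 ^ (4 * n)) := fun i =>
    if (i : ℕ) = 0 then Phi n ζ y₁ else if (i : ℕ) = 1 then Phi n ζ y₂ else Phi n ζ' y₃
  have hx : ∀ i, c (x i) = c (Phi n ζ y₁) := by
    intro i
    simp only [x]
    split_ifs
    · rfl
    · exact h12.symm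
    · exact h13.symm
  have hsol : ∑ i, family (m + 3) n i * x i = 0 := by
    rw [Fin.sum_univ_succ, Fin.sum_univ_succ, Fin.sum_univ_succ]
    have e0 : family (m + 3) n (0 : Fin (m + 3)) * x (0 : Fin (m + 3)) = Phi n ζ y₁ := by
      simp only [family, x]
      rw [if_neg (by simp), if_neg (by simp), if_pos (by simp), one_mul]
    have e1 : family (m + 3) n (0 : Fin (m + 2)).succ * x (0 : Fin (m + 2)).succ =
        -(1 + 2 ^ (2 * n) + 2 ^ (3 * n)) * Phi n ζ y₂ := by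
      simp only [family, x]
      rw [if_pos (by rw [Fin.val_succ]; rfl), if_neg (by rw [Fin.val_succ]; simp),
        if_pos (by rw [Fin.val_succ]; rfl)]
    have e2 : family (m + 3) n (0 : Fin (m + 1)).succ.succ * x (0 : Fin (m + 1)).succ.succ =
        (2 ^ (2 * n) - (m : ZMod (2 ^ (4 * n)))) * Phi n ζ' y₃ := by
      simp only [family, x]
      rw [if_neg (by rw [Fin.val_succ, Fin.val_succ]; simp),
        if_pos (by rw [Fin.val_succ, Fin.val_succ]; rfl),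
        if_neg (by rw [Fin.val_succ, Fin.val_succ]; simp),
        if_neg (by rw [Fin.val_succ, Fin.val_succ]; simp)]
      push_cast
      ring
    have e3 : ∀ i : Fin m, family (m + 3) n i.succ.succ.succ * x i.succ.succ.succ =
        Phi n ζ' y₃ := by
      intro i
      simp only [family, x]
      rw [if_neg (by simp), if_neg (by simp), if_neg (by simp), if_neg (by simp), one_mul]
    rw [e0, e1, e2, Finset.sum_congr rfl (fun i _ => e3 i), Finset.sum_const,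
      Finset.card_univ, Fintype.card_fin, nsmul_eq_mul]
    have := Phi_rel n ζ ζ' y₁ y₂ y₃ hrel
    linear_combination this
  refine ⟨x, ⟨hsol, fun i j => by rw [hx i, hx j]⟩, fun i hi => ?_⟩
  simp only [x]
  split_ifs with h2 h3
  · exact phi_not_mem N n hn1 ζ y₁ h0 h1
  · exact phi_not_mem N n hn1 ζ y₂ h0 h1
  · omega

/-! ### At most two unknowns -/

/-- The colour `0` or `1` given by the parity of an integer. -/
def col (z : ℤ) : Fin 2 := if z % 2 = 0 then 0 else 1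

theorem col_eq {z w : ℤ} (h : col z = col w) : (2 : ℤ) ∣ z - w := by
  unfold col at h
  split_ifs at h with h1 h2 h2
  · omega
  · exact absurd h (by decide)
  · exact absurd h (by decide)
  · omega

theorem rep {r : ℕ} (X : ℤ) :
    ∃ q : ℤ, (((X : ZMod (2 ^ r)).val : ℕ) : ℤ) = X + 2 ^ r * q := by
  refine ⟨-(X / ((2 ^ r : ℕ) : ℤ)), ?_⟩
  rw [ZMod.val_intCast, Int.emod_def]
  push_cast
  ring

/-- The exponent of two in the least non-negative representative. -/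
def val2 {r : ℕ} (x : ZMod (2 ^ r)) : ℕ := padicValNat 2 x.val

theorem val2_eq {r i : ℕ} (hi : i < r) (m : ℤ) (hm : Odd m) :
    val2 ((2 ^ i * m : ℤ) : ZMod (2 ^ r)) = i := by
  obtain ⟨q, hq⟩ := rep (r := r) (2 ^ i * m)
  have h1 : (2 : ℤ) ^ r = 2 ^ i * (2 * 2 ^ (r - i - 1)) := by
    rw [← pow_succ', ← pow_add]
    congr 1
    omega
  set V := ((2 ^ i * m : ℤ) : ZMod (2 ^ r)).val with hV
  have h2 : (V : ℤ) = 2 ^ i * (m + 2 * (2 ^ (r - i - 1) * q)) := by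
    rw [hq, h1]
    ring
  have h3 : Odd (m + 2 * (2 ^ (r - i - 1) * q)) := hm.add_even (even_two_mul _)
  have h4 : 0 ≤ m + 2 * (2 ^ (r - i - 1) * q) := by
    by_contra hneg
    push Not at hneg
    have h5 : (2 : ℤ) ^ i * (m + 2 * (2 ^ (r - i - 1) * q)) < 0 :=
      mul_neg_of_pos_of_neg (by positivity) hneg
    rw [← h2] at h5
    omega
  obtain ⟨M, hM⟩ := Int.eq_ofNat_of_zero_le h4
  rw [hM] at h2 h3
  have h6 : V = 2 ^ i * M := by exact_mod_cast h2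
  have h7 : Odd M := by exact_mod_cast h3
  have h8 : M ≠ 0 := by
    rintro rfl
    exact absurd h7 (by decide)
  unfold val2
  rw [← hV, h6, padicValNat.mul (by positivity) h8, padicValNat.prime_pow,
    padicValNat.eq_zero_of_not_dvd, add_zero]
  intro h9
  obtain ⟨w, hw⟩ := h9
  obtain ⟨w', hw'⟩ := h7
  omega

theorem exists_odd_factor (p : ℕ) (Y : ℤ) (h : ¬ (2 : ℤ) ^ p ∣ Y) :
    ∃ j : ℕ, j < p ∧ ∃ y : ℤ, Odd y ∧ Y = 2 ^ j * y := by
  induction p with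
  | zero => exact absurd (by simp) h
  | succ p ih =>
    by_cases h1 : (2 : ℤ) ^ p ∣ Y
    · obtain ⟨y, hy⟩ := h1
      refine ⟨p, Nat.lt_succ_self p, y, ?_, hy⟩
      by_contra h2
      rw [Int.not_odd_iff_even] at h2
      obtain ⟨w, hw⟩ := h2
      apply h
      refine ⟨w, ?_⟩
      rw [hy, hw, pow_succ]
      ring
    · obtain ⟨j, hj, y, hy⟩ := ih h1
      exact ⟨j, by omega, y, hy⟩

theorem dvd_of_odd_mul {p : ℕ} {u X : ℤ} (hu : Odd u) (h : (2 : ℤ) ^ p ∣ u * X) :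
    (2 : ℤ) ^ p ∣ X := by
  have h1 : IsCoprime ((2 : ℤ) ^ p) u := by
    apply IsCoprime.pow_left
    obtain ⟨m, rfl⟩ := hu
    exact ⟨-m, 1, by ring⟩
  exact h1.dvd_of_dvd_mul_left h

theorem odd_of_dvd_add {p : ℕ} (hp : 1 ≤ p) {a b : ℤ} (h : (2 : ℤ) ^ p ∣ a + b) (hb : Odd b) :
    Odd a := by
  have h1 : (2 : ℤ) ∣ a + b := by
    refine Dvd.dvd.trans ?_ h
    calc (2 : ℤ) = 2 ^ 1 := by norm_num
      _ ∣ 2 ^ p := pow_dvd_pow 2 hp
  obtain ⟨m, hm⟩ := hb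
  obtain ⟨w, hw⟩ := h1
  exact ⟨w - m - 1, by omega⟩

theorem dvd_cancel {r s : ℕ} (hs : s ≤ r) {Z : ℤ} (h : (2 : ℤ) ^ r ∣ 2 ^ s * Z) :
    (2 : ℤ) ^ (r - s) ∣ Z := by
  obtain ⟨w, hw⟩ := h
  refine ⟨w, ?_⟩
  have h1 : (2 : ℤ) ^ r = 2 ^ s * 2 ^ (r - s) := by
    rw [← pow_add]
    congr 1
    omega
  rw [h1, mul_assoc] at hw
  exact mul_left_cancel₀ (by positivity) hw

theorem pair_lt {r s t : ℕ} {u v : ℤ} (hu : Odd u) (hv : Odd v) (hst : s < t) (htr : t < r) :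
    ∃ c : ZMod (2 ^ r) → Fin 2, ∀ X Y : ℤ, (2 : ℤ) ^ r ∣ 2 ^ s * u * X + 2 ^ t * v * Y →
      c (X : ZMod (2 ^ r)) = c (Y : ZMod (2 ^ r)) →
      (2 : ℤ) ^ (r - t) ∣ X ∧ (2 : ℤ) ^ (r - t) ∣ Y := by
  refine ⟨fun x => col ((val2 x / (t - s) : ℕ) : ℤ), fun X Y hdvd hcol => ?_⟩
  have h1 : (2 : ℤ) ^ (r - s) ∣ u * X + 2 ^ (t - s) * v * Y := by
    apply dvd_cancel (by omega)
    have h2 : (2 : ℤ) ^ t = 2 ^ s * 2 ^ (t - s) := by
      rw [← pow_add]
      congr 1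
      omega
    rw [h2] at hdvd
    have h3 : (2 : ℤ) ^ s * (u * X + 2 ^ (t - s) * v * Y) =
        2 ^ s * u * X + 2 ^ s * 2 ^ (t - s) * v * Y := by ring
    rw [h3]
    exact hdvd
  by_cases hY : (2 : ℤ) ^ (r - t) ∣ Y
  · refine ⟨?_, hY⟩
    have h2 : (2 : ℤ) ^ (r - s) ∣ 2 ^ (t - s) * v * Y := by
      obtain ⟨w, hw⟩ := hY
      refine ⟨v * w, ?_⟩
      have h3 : (2 : ℤ) ^ (r - s) = 2 ^ (t - s) * 2 ^ (r - t) := by
        rw [← pow_add]
        congr 1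
        omega
      rw [hw, h3]
      ring
    have h3 : (2 : ℤ) ^ (r - s) ∣ u * X := (dvd_add_left h2).mp h1
    exact (pow_dvd_pow 2 (by omega)).trans (dvd_of_odd_mul hu h3)
  · exfalso
    obtain ⟨j, hj, y, hy, rfl⟩ := exists_odd_factor _ _ hY
    have h2 : (2 : ℤ) ^ (t - s + j) ∣ u * X := by
      have h3 : (2 : ℤ) ^ (t - s + j) ∣ 2 ^ (t - s) * v * (2 ^ j * y) :=
        ⟨v * y, by rw [pow_add]; ring⟩
      exact (dvd_add_left h3).mp ((pow_dvd_pow 2 (by omega)).trans h1)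
    obtain ⟨x', rfl⟩ := dvd_of_odd_mul hu h2
    have h3 : (2 : ℤ) ^ (r - s - (t - s + j)) ∣ u * x' + v * y := by
      apply dvd_cancel (by omega)
      have h4 : (2 : ℤ) ^ (t - s + j) * (u * x' + v * y) =
          u * (2 ^ (t - s + j) * x') + 2 ^ (t - s) * v * (2 ^ j * y) := by
        rw [pow_add]
        ring
      rw [h4]
      exact h1
    have h4 : Odd (u * x') := odd_of_dvd_add (by omega) h3 (hv.mul hy)
    have h5 : Odd x' := (Int.odd_mul.mp h4).2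
    have h6 := col_eq hcol
    rw [val2_eq (by omega) x' h5, val2_eq (by omega) y hy, add_comm (t - s) j,
      Nat.add_div_right _ (by omega)] at h6
    push_cast at h6
    omega

theorem pair_eq {r s e : ℕ} {u v z : ℤ} (hu : Odd u) (hv : Odd v) (hz : Odd z)
    (huv : u + v = 2 ^ e * z) (he : s + e < r) :
    ∃ c : ZMod (2 ^ r) → Fin 2, ∀ X Y : ℤ, (2 : ℤ) ^ r ∣ 2 ^ s * u * X + 2 ^ s * v * Y →
      c (X : ZMod (2 ^ r)) = c (Y : ZMod (2 ^ r)) →
      (2 : ℤ) ^ (r - (s + e)) ∣ X ∧ (2 : ℤ) ^ (r - (s + e)) ∣ Y := by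
  refine ⟨fun x => col ((x.val : ℤ) / 2 ^ (val2 x + e)), fun X Y hdvd hcol => ?_⟩
  have h1 : (2 : ℤ) ^ (r - s) ∣ u * X + v * Y := by
    apply dvd_cancel (by omega)
    have h3 : (2 : ℤ) ^ s * (u * X + v * Y) = 2 ^ s * u * X + 2 ^ s * v * Y := by ring
    rw [h3]
    exact hdvd
  by_cases hY : (2 : ℤ) ^ (r - (s + e)) ∣ Y
  · refine ⟨?_, hY⟩
    have h2 : (2 : ℤ) ^ (r - (s + e)) ∣ u * X + v * Y := (pow_dvd_pow 2 (by omega)).trans h1
    have h3 : (2 : ℤ) ^ (r - (s + e)) ∣ u * X :=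
      (dvd_add_left (hY.mul_left v)).mp h2
    exact dvd_of_odd_mul hu h3
  · exfalso
    obtain ⟨j, hj, y, hy, rfl⟩ := exists_odd_factor _ _ hY
    have h2 : (2 : ℤ) ^ j ∣ u * X := by
      have h3 : (2 : ℤ) ^ j ∣ v * (2 ^ j * y) := ⟨v * y, by ring⟩
      exact (dvd_add_left h3).mp ((pow_dvd_pow 2 (by omega)).trans h1)
    obtain ⟨x', rfl⟩ := dvd_of_odd_mul hu h2
    have h3 : (2 : ℤ) ^ (r - s - j) ∣ u * x' + v * y := by
      apply dvd_cancel (by omega)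
      have h4 : (2 : ℤ) ^ j * (u * x' + v * y) = u * (2 ^ j * x') + v * (2 ^ j * y) := by ring
      rw [h4]
      exact h1
    have h4 : Odd (u * x') := odd_of_dvd_add (by omega) h3 (hv.mul hy)
    have h5 : Odd x' := (Int.odd_mul.mp h4).2
    have h6 : (2 : ℤ) ^ e ∣ u * (x' - y) := by
      have h7 : u * (x' - y) = (u * x' + v * y) - 2 ^ e * (z * y) := by
        linear_combination -y * huv
      rw [h7]
      exact dvd_sub ((pow_dvd_pow 2 (by omega)).trans h3) (dvd_mul_right _ _)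
    obtain ⟨g, hg⟩ := dvd_of_odd_mul hu h6
    have h7 : (2 : ℤ) ^ (r - s - j - e) ∣ u * g + z * y := by
      apply dvd_cancel (by omega)
      have h8 : (2 : ℤ) ^ e * (u * g + z * y) = u * x' + v * y := by
        linear_combination -u * hg - y * huv
      rw [h8]
      exact h3
    have h8 : Odd (u * g) := odd_of_dvd_add (by omega) h7 (hz.mul hy)
    have h9 : Odd g := (Int.odd_mul.mp h8).2
    have h10 := col_eq hcol
    rw [val2_eq (by omega) x' h5, val2_eq (by omega) y hy] at h10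
    obtain ⟨q₁, hq₁⟩ := rep (r := r) (2 ^ j * x')
    obtain ⟨q₂, hq₂⟩ := rep (r := r) (2 ^ j * y)
    have h11 : (2 : ℤ) ^ r = 2 ^ (j + e) * (2 * 2 ^ (r - j - e - 1)) := by
      rw [← pow_succ', ← pow_add]
      congr 1
      omega
    have h12 : ((((2 ^ j * x' : ℤ) : ZMod (2 ^ r)).val : ℕ) : ℤ) =
        ((((2 ^ j * y : ℤ) : ZMod (2 ^ r)).val : ℕ) : ℤ) +
          2 ^ (j + e) * (g + 2 * (2 ^ (r - j - e - 1) * (q₁ - q₂))) := by
      rw [hq₁, hq₂, h11, pow_add]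
      linear_combination (2 : ℤ) ^ j * hg
    rw [h12, Int.add_mul_ediv_left _ _ (by positivity), add_sub_cancel_left] at h10
    obtain ⟨w, hw⟩ := h9
    omega

theorem exists_factor {r : ℕ} (a : ZMod (2 ^ r)) (ha : a ≠ 0) :
    ∃ s : ℕ, s < r ∧ ∃ u : ℤ, Odd u ∧ a = ((2 ^ s * u : ℤ) : ZMod (2 ^ r)) := by
  obtain ⟨A, rfl⟩ := ZMod.intCast_surjective a
  have h : ¬ (2 : ℤ) ^ r ∣ A := by
    intro h
    apply ha
    rw [ZMod.intCast_zmod_eq_zero_iff_dvd]
    push_cast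
    exact h
  obtain ⟨s, hs, u, hu, rfl⟩ := exists_odd_factor r A h
  exact ⟨s, hs, u, hu, rfl⟩

theorem good_of_zero {r k K : ℕ} (a : Fin k → ZMod (2 ^ r)) (c : ZMod (2 ^ r) → Fin K)
    (i : Fin k) (hi : a i = 0) : Good a c := by
  intro x _ l
  have h1 : r ∈ exponents a := by
    refine ⟨le_rfl, {i}, Finset.singleton_nonempty i, ?_⟩
    rw [Finset.sum_singleton, hi]
    exact (twoPow r r).zero_mem
  have h2 := le_dOf a h1
  rw [Nat.sub_eq_zero_of_le h2]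
  exact mem_twoPow_zero _

theorem le_dOf_single {r k e : ℕ} (a : Fin k → ZMod (2 ^ r)) (i : Fin k) (he : e ≤ r) (u : ℤ)
    (hi : a i = ((2 ^ e * u : ℤ) : ZMod (2 ^ r))) : e ≤ dOf a := by
  apply le_dOf
  refine ⟨he, {i}, Finset.singleton_nonempty i, ?_⟩
  rw [Finset.sum_singleton, hi, intCast_mem he]
  exact dvd_mul_right _ _

theorem mem_of_dvd {r D p : ℕ} (hD : p ≤ r) (hp : D ≤ p) {X : ℤ} (h : (2 : ℤ) ^ p ∣ X) :
    (X : ZMod (2 ^ r)) ∈ twoPow r D :=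
  (intCast_mem (hp.trans hD) X).mpr ((pow_dvd_pow 2 hp).trans h)

theorem one_good (r : ℕ) (a : Fin 1 → ZMod (2 ^ r)) : ∃ c : ZMod (2 ^ r) → Fin 2, Good a c := by
  by_cases ha : a 0 = 0
  · exact ⟨fun _ => 0, good_of_zero a _ 0 ha⟩
  · obtain ⟨s, hs, u, hu, hau⟩ := exists_factor (a 0) ha
    refine ⟨fun _ => 0, fun x hx i => ?_⟩
    have hi : i = 0 := Subsingleton.elim _ _
    rw [hi]
    have h1 : a 0 * x 0 = 0 := by
      have := hx.1
      rwa [Fin.sum_univ_one] at this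
    obtain ⟨X, hX⟩ := ZMod.intCast_surjective (x 0)
    rw [hau, ← hX, ← Int.cast_mul, ZMod.intCast_zmod_eq_zero_iff_dvd] at h1
    push_cast at h1
    rw [mul_assoc] at h1
    have h2 := dvd_of_odd_mul hu (dvd_cancel hs.le h1)
    have h3 := le_dOf_single a 0 hs.le u hau
    rw [← hX]
    exact mem_of_dvd (by omega) (by omega) h2

theorem two_good (r : ℕ) (a : Fin 2 → ZMod (2 ^ r)) : ∃ c : ZMod (2 ^ r) → Fin 2, Good a c := by
  by_cases h0 : a 0 = 0
  · exact ⟨fun _ => 0, good_of_zero a _ 0 h0⟩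
  by_cases h1 : a 1 = 0
  · exact ⟨fun _ => 0, good_of_zero a _ 1 h1⟩
  obtain ⟨s, hs, u, hu, hau⟩ := exists_factor (a 0) h0
  obtain ⟨t, ht, v, hv, hav⟩ := exists_factor (a 1) h1
  have hsd := le_dOf_single a 0 hs.le u hau
  have htd := le_dOf_single a 1 ht.le v hav
  -- it is enough to treat integer solutions
  have key : ∀ (p : ℕ) (c : ZMod (2 ^ r) → Fin 2), p ≤ r → r - dOf a ≤ p →
      (∀ X Y : ℤ, (2 : ℤ) ^ r ∣ 2 ^ s * u * X + 2 ^ t * v * Y →
        c (X : ZMod (2 ^ r)) = c (Y : ZMod (2 ^ r)) → (2 : ℤ) ^ p ∣ X ∧ (2 : ℤ) ^ p ∣ Y) →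
      Good a c := by
    intro p c hpr hp hc x hx i
    obtain ⟨X, hX⟩ := ZMod.intCast_surjective (x 0)
    obtain ⟨Y, hY⟩ := ZMod.intCast_surjective (x 1)
    have h2 := hx.1
    rw [Fin.sum_univ_two, hau, hav, ← hX, ← hY, ← Int.cast_mul, ← Int.cast_mul, ← Int.cast_add,
      ZMod.intCast_zmod_eq_zero_iff_dvd] at h2
    push_cast at h2
    have h3 := hx.2 0 1
    rw [← hX, ← hY] at h3
    obtain ⟨h4, h5⟩ := hc X Y h2 h3
    have h6 : ∀ l : Fin 2, l = 0 ∨ l = 1 := by decide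
    rcases h6 i with rfl | rfl
    · rw [← hX]
      exact mem_of_dvd hpr hp h4
    · rw [← hY]
      exact mem_of_dvd hpr hp h5
  rcases lt_trichotomy s t with hst | hst | hst
  · obtain ⟨c, hc⟩ := pair_lt hu hv hst ht
    exact ⟨c, key (r - t) c (by omega) (by omega) hc⟩
  · rw [← hst] at hav ht htd key
    by_cases huv : (2 : ℤ) ^ (r - s) ∣ u + v
    · refine ⟨fun _ => 0, key 0 _ (by omega) ?_ ?_⟩
      · have h2 : r ∈ exponents a := by
          refine ⟨le_rfl, Finset.univ, Finset.univ_nonempty, ?_⟩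
          rw [Fin.sum_univ_two, hau, hav, ← Int.cast_add, intCast_mem le_rfl]
          obtain ⟨w, hw⟩ := huv
          refine ⟨w, ?_⟩
          have h3 : (2 : ℤ) ^ r = 2 ^ s * 2 ^ (r - s) := by
            rw [← pow_add]
            congr 1
            omega
          rw [h3]
          linear_combination (2 : ℤ) ^ s * hw
        have h3 := le_dOf a h2
        omega
      · intro X Y _ _
        exact ⟨by simp, by simp⟩
    · obtain ⟨e, he, z, hz, hzuv⟩ := exists_odd_factor _ _ huv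
      obtain ⟨c, hc⟩ := pair_eq (r := r) (s := s) hu hv hz hzuv (by omega)
      refine ⟨c, key (r - (s + e)) c (by omega) ?_ hc⟩
      have h2 : s + e ∈ exponents a := by
        refine ⟨by omega, Finset.univ, Finset.univ_nonempty, ?_⟩
        rw [Fin.sum_univ_two, hau, hav, ← Int.cast_add, intCast_mem (by omega)]
        refine ⟨z, ?_⟩
        rw [pow_add]
        linear_combination (2 : ℤ) ^ s * hzuv
      have h3 := le_dOf a h2
      omega
  · obtain ⟨c, hc⟩ := pair_lt hv hu hst hs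
    refine ⟨c, key (r - s) c (by omega) (by omega) fun X Y hdvd hcol => ?_⟩
    rw [add_comm] at hdvd
    exact (hc Y X hdvd hcol.symm).symm

theorem small_good (k : ℕ) (hk : k ≤ 2) (r : ℕ) (a : Fin k → ZMod (2 ^ r)) :
    ∃ c : ZMod (2 ^ r) → Fin 2, Good a c := by
  match k, hk, a with
  | 0, _, _ => exact ⟨fun _ => 0, fun _ _ i => i.elim0⟩
  | 1, _, a => exact one_good r a
  | 2, _, a => exact two_good r a

/-- **Q1 has a negative answer, and the list of `k` for which its assertion holds.**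

* For `k` at least `1` the number `d(a_1, …, a_k)` is well defined: it is the greatest element of
  the set of exponents in the problem.
* It is false that for every positive `k` some number `K` of colours serves all `r` and all
  coefficients.
* More precisely, for one value of `k` this holds exactly when `k ≤ 2`, and then two colours are
  enough.
* For every `K` there is `m` such that for all `k ≥ 3` and all `n ≥ m + k` the explicit
  coefficients `family k n` in `ℤ / 2 ^ (4 n)` have `d = 3 n`, so that `r - d = n`, and every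
  colouring of `ℤ / 2 ^ (4 n)` with `K` colours has a monochromatic solution in which `2 ^ m`
  divides neither of the first two entries; as `m ≤ n`, the same holds for `2 ^ n`. -/
theorem result :
    (∀ (k r : ℕ) (a : Fin k → ZMod (2 ^ r)), 0 < k → IsGreatest (exponents a) (dOf a)) ∧
    (¬ ∀ k : ℕ, 0 < k → Bounded k) ∧
    (∀ k : ℕ, Bounded k ↔ k ≤ 2) ∧
    (∀ k : ℕ, k ≤ 2 → ∀ (r : ℕ) (a : Fin k → ZMod (2 ^ r)),
      ∃ c : ZMod (2 ^ r) → Fin 2, Good a c) ∧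
    (∀ K : ℕ, ∃ m : ℕ, ∀ k n : ℕ, 3 ≤ k → m + k ≤ n → dOf (family k n) = 3 * n ∧
      ∀ c : ZMod (2 ^ (4 * n)) → Fin K, ∃ x : Fin k → ZMod (2 ^ (4 * n)),
        MonoSolution (family k n) c x ∧
          ∀ i : Fin k, (i : ℕ) ≤ 1 → x i ∉ twoPow (4 * n) m ∧ x i ∉ twoPow (4 * n) n) := by
  have hbad : ∀ K : ℕ, ∃ m : ℕ, ∀ k n : ℕ, 3 ≤ k → m + k ≤ n → dOf (family k n) = 3 * n ∧
      ∀ c : ZMod (2 ^ (4 * n)) → Fin K, ∃ x : Fin k → ZMod (2 ^ (4 * n)),
        MonoSolution (family k n) c x ∧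
          ∀ i : Fin k, (i : ℕ) ≤ 1 → x i ∉ twoPow (4 * n) m ∧ x i ∉ twoPow (4 * n) n := by
    intro K
    obtain ⟨m, hm⟩ := family_bad K
    refine ⟨m, fun k n hk hn => ⟨(hm k n hk hn).1, fun c => ?_⟩⟩
    obtain ⟨x, hx, hxi⟩ := (hm k n hk hn).2 c
    exact ⟨x, hx, fun i hi => ⟨hxi i hi, fun h => hxi i hi (twoPow_mono (by omega) h)⟩⟩
  have hno : ∀ k : ℕ, 3 ≤ k → ¬ Bounded k := by
    rintro k hk ⟨K, hK⟩
    obtain ⟨m, hm⟩ := hbad K
    obtain ⟨c, hc⟩ := hK (4 * (m + k)) (family k (m + k))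
    obtain ⟨hd, hex⟩ := hm k (m + k) hk le_rfl
    obtain ⟨x, hx, hxi⟩ := hex c
    have h1 := hc x hx ⟨0, by omega⟩
    rw [hd, show 4 * (m + k) - 3 * (m + k) = m + k by omega] at h1
    exact (hxi ⟨0, by omega⟩ (by simp)).2 h1
  refine ⟨fun k r a hk => dOf_isGreatest a hk, fun h => hno 3 le_rfl (h 3 (by norm_num)),
    fun k => ⟨fun h => ?_, fun h => ⟨2, fun r a => small_good k h r a⟩⟩, small_good, hbad⟩
  by_contra hk
  exact hno k (by omega) h

end Pool.Agent.Results.MP_2076c8_co.UnboundedFromThree
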